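import Pool.Agent.Helper64.IG.Goals

/-!
# Packet F1I: the index form of the window dimension
-/

set_option autoImplicit false

open scoped BigOperators
open Module

universe u

namespace Pool.Agent.Helper64.IG.PkF1I

theorem mem_map_get {V : Type*} (l : List V) (F : List (Fin l.length)) :
    {v | v ∈ F.map l.get} = l.get '' (F.toFinset : Set (Fin l.length)) := by
  ext v
  simp

theorem f1i (win : G_WIN.{u}) : G_F1I.{u} := by
  intro K _ p c l hc hl L1 F L2 hnd hlen
  have hall : ∀ i : Fin l.length, i ∈ L1 ++ F ++ L2 := by
    intro i
    have h1 : (L1 ++ F ++ L2).toFinset = Finset.univ := by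
      rw [← Finset.card_eq_iff_eq_univ, List.toFinset_card_of_nodup hnd, hlen, Fintype.card_fin]
    have h2 := Finset.mem_univ i
    rw [← h1] at h2
    exact List.mem_toFinset.1 h2
  have hcompl : (L1 ++ L2).toFinset = (F.toFinset)ᶜ := by
    ext i
    rw [List.mem_toFinset, Finset.mem_compl, List.mem_toFinset]
    constructor
    · intro h h'
      rw [List.append_assoc, List.nodup_append'] at hnd
      obtain ⟨h3, h4, h5⟩ := hnd
      rw [List.nodup_append'] at h4
      rcases List.mem_append.1 h with h6 | h6
      · exact h5 h6 (List.mem_append_left _ h')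
      · exact h4.2.2 h' h6
    · intro h
      have := hall i
      simp only [List.mem_append] at this ⊢
      tauto
  have hset : {v | v ∈ L1.map l.get ++ F.map l.get ++ L2.map l.get} = {v | v ∈ l} := by
    rw [← List.map_append, ← List.map_append, mem_map_get]
    ext v
    constructor
    · rintro ⟨i, -, rfl⟩
      exact List.get_mem l i
    · intro h
      obtain ⟨i, rfl⟩ := List.get_of_mem h
      exact ⟨i, by simpa using hall i, rfl⟩
  have hr : rkl (L1.map l.get ++ F.map l.get ++ L2.map l.get) = p := by
    refine Eq.trans ?_ hl
    unfold rkl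
    rw [hset]
  have h := (win K p c hc).2 (L1.map l.get) (F.map l.get) (L2.map l.get) hr
  have h1 : (L1.map l.get ++ F.map l.get ++ L2.map l.get).length = l.length := by
    rw [← List.map_append, ← List.map_append, List.length_map, hlen]
  have h2 : rkl (F.map l.get) = rkS l F.toFinset := by
    unfold rkl rkS
    rw [mem_map_get]
  have h3 : rkl (L1.map l.get ++ L2.map l.get) = rkS l (F.toFinset)ᶜ := by
    unfold rkl rkS
    rw [← List.map_append, mem_map_get, hcompl]
  rw [h1, List.length_map, List.length_map, h2, h3] at h
  rw [List.map_append, List.map_append]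
  exact h

end Pool.Agent.Helper64.IG.PkF1I
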