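import Pool.Agent.Helper64.IG.Goals

/-!
# Packet RB: restriction of trees
-/

set_option autoImplicit false

open scoped BigOperators

namespace Pool.Agent.Helper64.IG.PkRB

variable {E : Type} [DecidableEq E]

theorem res_none (Y : Finset E) (s : BT E) : s.res Y = none ↔ s.set ∩ Y = ∅ := by
  induction s with
  | leaf e =>
    by_cases h : e ∈ Y
    · simp [BT.res, BT.set, h]
    · simp [BT.res, BT.set, h]
  | node a b iha ihb =>
    rw [BT.set, Finset.union_inter_distrib_right, Finset.union_eq_empty, ← iha, ← ihb]
    rcases ha : a.res Y with _ | a' <;> rcases hb : b.res Y with _ | b' <;>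
      simp [BT.res, ha, hb]

theorem res_self (Y : Finset E) (s : BT E) (h : s.set ⊆ Y) : s.res Y = some s := by
  induction s with
  | leaf e =>
    have : e ∈ Y := h (by simp [BT.set])
    simp [BT.res, this]
  | node a b iha ihb =>
    rw [BT.set] at h
    simp [BT.res, iha (Finset.union_subset_left h), ihb (Finset.union_subset_right h)]

theorem res_set (Y : Finset E) (s : BT E) : ∀ a, s.res Y = some a → a.set = s.set ∩ Y := by
  induction s with
  | leaf e =>
    intro a h
    by_cases he : e ∈ Y
    · simp only [BT.res, he, if_true, Option.some.injEq] at h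
      subst h
      simp [BT.set, he]
    · simp [BT.res, he] at h
  | node x y ihx ihy =>
    intro a h
    rw [BT.set, Finset.union_inter_distrib_right]
    rcases hx : x.res Y with _ | x' <;> rcases hy : y.res Y with _ | y' <;>
      simp only [BT.res, hx, hy, reduceCtorEq, Option.some.injEq] at h
    · subst h
      rw [(res_none Y x).1 hx, Finset.empty_union, ihy _ hy]
    · subst h
      rw [(res_none Y y).1 hy, Finset.union_empty, ihx _ hx]
    · subst h
      rw [BT.set, ihx _ hx, ihy _ hy]

theorem res_disj (Y : Finset E) (s : BT E) : ∀ a, s.res Y = some a → s.Disj → a.Disj := by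
  induction s with
  | leaf e =>
    intro a h hd
    by_cases he : e ∈ Y
    · simp only [BT.res, he, if_true, Option.some.injEq] at h
      subst h
      trivial
    · simp [BT.res, he] at h
  | node x y ihx ihy =>
    intro a h hd
    rcases hx : x.res Y with _ | x' <;> rcases hy : y.res Y with _ | y' <;>
      simp only [BT.res, hx, hy, reduceCtorEq, Option.some.injEq] at h
    · subst h
      exact ihy _ hy hd.2.2
    · subst h
      exact ihx _ hx hd.2.1
    · subst h
      refine ⟨?_, ihx _ hx hd.2.1, ihy _ hy hd.2.2⟩
      rw [res_set Y x _ hx, res_set Y y _ hy]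
      exact Finset.disjoint_of_subset_left Finset.inter_subset_left
        (Finset.disjoint_of_subset_right Finset.inter_subset_left hd.1)

theorem res_wle (Y : Finset E) (lam : Finset E → ℕ) (w : ℕ) (s : BT E) :
    ∀ a, s.res Y = some a →
      (∀ v, BT.Sub v s → (v.set ∩ Y).Nonempty → lam (v.set ∩ Y) ≤ w) → a.WLe lam w := by
  induction s with
  | leaf e =>
    intro a h hv
    by_cases he : e ∈ Y
    · simp only [BT.res, he, if_true, Option.some.injEq] at h
      subst h
      have h1 : (BT.leaf e).set ∩ Y = {e} := by simp [BT.set, he]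
      have h2 := hv _ (BT.Sub.refl _) (by rw [h1]; exact Finset.singleton_nonempty e)
      rw [h1] at h2
      exact h2
    · simp [BT.res, he] at h
  | node x y ihx ihy =>
    intro a h hv
    have hvx : ∀ v, BT.Sub v x → (v.set ∩ Y).Nonempty → lam (v.set ∩ Y) ≤ w :=
      fun v h1 h2 => hv v (BT.Sub.left y h1) h2
    have hvy : ∀ v, BT.Sub v y → (v.set ∩ Y).Nonempty → lam (v.set ∩ Y) ≤ w :=
      fun v h1 h2 => hv v (BT.Sub.right x h1) h2
    rcases hx : x.res Y with _ | x' <;> rcases hy : y.res Y with _ | y' <;>
      simp only [BT.res, hx, hy, reduceCtorEq, Option.some.injEq] at h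
    · subst h
      exact ihy _ hy hvy
    · subst h
      exact ihx _ hx hvx
    · subst h
      refine ⟨?_, ihx _ hx hvx, ihy _ hy hvy⟩
      have h1 : x'.set ∪ y'.set = (BT.node x y).set ∩ Y := by
        rw [res_set Y x _ hx, res_set Y y _ hy, BT.set, Finset.union_inter_distrib_right]
      rw [h1]
      refine hv _ (BT.Sub.refl _) ?_
      rw [Finset.nonempty_iff_ne_empty, Ne, ← res_none]
      simp [BT.res, hx, hy]

theorem hW_mono (k : ℕ) {l l' : ℕ} (h : l ≤ l') : BT.hW k l ≤ BT.hW k l' := by
  unfold BT.hW
  by_cases h1 : k ≤ l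
  · rw [if_pos h1, if_pos (h1.trans h)]
    exact Nat.pow_le_pow_right (by norm_num) (by omega)
  · rw [if_neg h1]
    exact Nat.zero_le _

theorem psi_mono (lam : Finset E → ℕ) (k : ℕ) (s : BT E) {q q' : ℕ} (h : q ≤ q') :
    BT.psi lam k q s ≤ BT.psi lam k q' s := by
  cases s with
  | leaf e =>
    unfold BT.psi
    have := hW_mono k (min_le_min_left (lam {e}) h)
    omega
  | node a b =>
    unfold BT.psi
    have := hW_mono k (min_le_min_left (lam (a.set ∪ b.set)) h)
    omega

theorem psi_min (lam : Finset E → ℕ) (k q : ℕ) (s : BT E) :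
    BT.psi lam k q s = BT.psi lam k (min q (lam s.set)) s := by
  cases s with
  | leaf e =>
    have h : min (lam {e}) (min q (lam {e})) = min (lam {e}) q := by omega
    simp only [BT.psi, BT.set, h]
  | node a b =>
    have h : min (lam (a.set ∪ b.set)) (min q (lam (a.set ∪ b.set))) =
        min (lam (a.set ∪ b.set)) q := by omega
    simp only [BT.psi, BT.set, h]

theorem rb : G_RB := fun _ _ Y s =>
  ⟨res_none Y s, res_self Y s, fun a h => ⟨res_set Y s a h, res_disj Y s a h,
    fun lam w hv => res_wle Y lam w s a h hv⟩, fun lam k _ _ h => psi_mono lam k s h,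
    fun lam k q => psi_min lam k q s⟩

end Pool.Agent.Helper64.IG.PkRB
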